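import Pool.Agent.helper88.PF.Spec

set_option autoImplicit false

namespace PF

noncomputable section

theorem DEN_tb (n i : ℕ) : tb n i ↔ n.testBit i = true := by
  unfold tb
  rw [Nat.testBit_eq_decide_div_mod_eq]
  simp

theorem DEN_sub (u v : ℕ) : subN u v ↔ ∀ i, tb u i → tb v i := by
  constructor
  · intro h i hi
    refine h i ?_ hi
    by_contra hlt
    have h1 : u < 2 ^ i := lt_of_le_of_lt (not_lt.1 hlt) Nat.lt_two_pow_self
    unfold tb at hi
    rw [Nat.div_eq_of_lt h1] at hi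
    simp at hi
  · intro h i _ hi
    exact h i hi

/-- the number with the bits `P i`, `i < N` -/
def DEN_s (P : ℕ → Prop) (N : ℕ) : ℕ := by
  classical
  exact ∑ i ∈ Finset.range N, if P i then 2 ^ i else 0

theorem DEN_s_succ (P : ℕ → Prop) (N : ℕ) :
    (P N → DEN_s P (N + 1) = DEN_s P N + 2 ^ N) ∧ (¬ P N → DEN_s P (N + 1) = DEN_s P N) := by
  unfold DEN_s
  constructor
  · intro h
    rw [Finset.sum_range_succ, if_pos h]
  · intro h
    rw [Finset.sum_range_succ, if_neg h, add_zero]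

theorem DEN_s_lt (P : ℕ → Prop) (N : ℕ) : DEN_s P N < 2 ^ N := by
  induction N with
  | zero => simp [DEN_s]
  | succ N ih =>
    have h2 : (2 : ℕ) ^ (N + 1) = 2 ^ N + 2 ^ N := by ring
    by_cases h : P N
    · rw [(DEN_s_succ P N).1 h]; omega
    · rw [(DEN_s_succ P N).2 h]; omega

theorem DEN_low (x s N i : ℕ) (hi : i < N) : tb (x * 2 ^ N + s) i ↔ tb s i := by
  unfold tb
  obtain ⟨k, rfl⟩ : ∃ k, N = i + (k + 1) := ⟨N - i - 1, by omega⟩
  have h1 : x * 2 ^ (i + (k + 1)) + s = s + 2 ^ i * (2 * (x * 2 ^ k)) := by ring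
  rw [h1, Nat.add_mul_div_left _ _ (by positivity), Nat.add_mul_mod_self_left]

theorem DEN_high (x s N i : ℕ) (hs : s < 2 ^ N) (hi : N ≤ i) : tb (x * 2 ^ N + s) i ↔ tb x (i - N) := by
  unfold tb
  obtain ⟨k, rfl⟩ : ∃ k, i = N + k := ⟨i - N, by omega⟩
  have h1 : (x * 2 ^ N + s) / 2 ^ (N + k) = x / 2 ^ k := by
    rw [pow_add, ← Nat.div_div_eq_div_mul]
    congr 1
    rw [add_comm, Nat.add_mul_div_right _ _ (by positivity), Nat.div_eq_of_lt hs, zero_add]
  rw [h1]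
  simp

theorem DEN_s_tb (P : ℕ → Prop) (N : ℕ) : ∀ i, tb (DEN_s P N) i ↔ (i < N ∧ P i) := by
  induction N with
  | zero =>
    intro i
    simp [DEN_s, tb]
  | succ N ih =>
    intro i
    have hlt := DEN_s_lt P N
    have hlt' := DEN_s_lt P (N + 1)
    rcases lt_trichotomy i N with hi | hi | hi
    · have h1 : tb (DEN_s P (N + 1)) i ↔ tb (DEN_s P N) i := by
        by_cases h : P N
        · rw [(DEN_s_succ P N).1 h]
          have := DEN_low 1 (DEN_s P N) N i hi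
          rwa [one_mul, add_comm] at this
        · rw [(DEN_s_succ P N).2 h]
      rw [h1, ih i]
      constructor
      · rintro ⟨_, h⟩; exact ⟨by omega, h⟩
      · rintro ⟨_, h⟩; exact ⟨hi, h⟩
    · subst hi
      by_cases h : P i
      · rw [(DEN_s_succ P i).1 h]
        have := DEN_high 1 (DEN_s P i) i i hlt (le_refl _)
        rw [one_mul, add_comm] at this
        rw [this]
        simp [tb, h]
      · rw [(DEN_s_succ P i).2 h, ih i]
        simp [h]
    · have h0 : DEN_s P (N + 1) < 2 ^ i :=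
        lt_of_lt_of_le hlt' (Nat.pow_le_pow_right (by norm_num) hi)
      unfold tb
      rw [Nat.div_eq_of_lt h0]
      constructor
      · intro h; simp at h
      · rintro ⟨h, _⟩; omega

theorem DEN_eq {x y : ℕ} (h : ∀ i, tb x i ↔ tb y i) : x = y := by
  apply Nat.eq_of_testBit_eq
  intro i
  have := h i
  rw [DEN_tb, DEN_tb] at this
  cases hx : x.testBit i <;> cases hy : y.testBit i <;> simp_all

theorem DEN : DEN_stmt := by
  intro β₀ α β b a B e₀ e₁ e₂ h0 h1 h2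
  set N : ℕ := 2 ^ (a + B) with hN
  let P : Set (α × β) → ℕ → Prop := fun D n => ∃ u v, n = e₁ u * 2 ^ B + e₂ v ∧ (u, v) ∈ D
  let e : β₀.prod (α.prod β).set → ℕ := fun z => e₀ z.1 * 2 ^ N + DEN_s (P z.2) N
  have hidx : ∀ (u : α) (v : β), e₁ u * 2 ^ B + e₂ v < N := by
    intro u v
    have hu := h1.lt u
    have hv := h2.lt v
    rw [hN, pow_add]
    calc e₁ u * 2 ^ B + e₂ v < e₁ u * 2 ^ B + 2 ^ B := by omega
      _ = (e₁ u + 1) * 2 ^ B := by ring
      _ ≤ 2 ^ a * 2 ^ B := Nat.mul_le_mul_right _ hu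
  have hinj : ∀ (u u' : α) (v v' : β), e₁ u * 2 ^ B + e₂ v = e₁ u' * 2 ^ B + e₂ v' → u = u' ∧ v = v' := by
    intro u u' v v' h
    have hv := h2.lt v
    have hv' := h2.lt v'
    have hd : (e₁ u * 2 ^ B + e₂ v) / 2 ^ B = e₁ u := by
      rw [add_comm, Nat.add_mul_div_right _ _ (by positivity), Nat.div_eq_of_lt hv, zero_add]
    have hd' : (e₁ u' * 2 ^ B + e₂ v') / 2 ^ B = e₁ u' := by
      rw [add_comm, Nat.add_mul_div_right _ _ (by positivity), Nat.div_eq_of_lt hv', zero_add]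
    have hu : e₁ u = e₁ u' := by rw [← hd, ← hd', h]
    have hv2 : e₂ v = e₂ v' := by rw [hu] at h; omega
    exact ⟨h1.inj hu, h2.inj hv2⟩
  have hsurj : ∀ i, i < N → ∃ (u : α) (v : β), i = e₁ u * 2 ^ B + e₂ v := by
    intro i hi
    have hi1 : i / 2 ^ B < 2 ^ a := by
      rw [Nat.div_lt_iff_lt_mul (by positivity), ← pow_add]
      exact hi
    obtain ⟨u, hu⟩ := h1.surj _ hi1
    obtain ⟨v, hv⟩ := h2.surj (i % 2 ^ B) (Nat.mod_lt _ (by positivity))
    refine ⟨u, v, ?_⟩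
    rw [hu, hv, mul_comm]
    exact (Nat.div_add_mod i (2 ^ B)).symm
  have hP : ∀ (D : Set (α × β)) (u : α) (v : β), P D (e₁ u * 2 ^ B + e₂ v) ↔ (u, v) ∈ D := by
    intro D u v
    constructor
    · rintro ⟨u', v', h, hD⟩
      obtain ⟨hu, hv⟩ := hinj _ _ _ _ h
      rw [hu, hv]
      exact hD
    · intro h
      exact ⟨u, v, rfl, h⟩
  have hlow : ∀ (z : β₀.prod (α.prod β).set) (i : ℕ), i < N → (tb (e z) i ↔ P z.2 i) := by
    intro z i hi
    show tb (e₀ z.1 * 2 ^ N + DEN_s (P z.2) N) i ↔ P z.2 i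
    rw [DEN_low _ _ _ _ hi, DEN_s_tb]
    exact ⟨fun h => h.2, fun h => ⟨hi, h⟩⟩
  have hhigh : ∀ (z : β₀.prod (α.prod β).set) (i : ℕ), N ≤ i → (tb (e z) i ↔ tb (e₀ z.1) (i - N)) := by
    intro z i hi
    exact DEN_high _ _ _ _ (DEN_s_lt _ _) hi
  have hdiv : ∀ z : β₀.prod (α.prod β).set, e z / 2 ^ N = e₀ z.1 := by
    intro z
    show (e₀ z.1 * 2 ^ N + DEN_s (P z.2) N) / 2 ^ N = e₀ z.1
    rw [add_comm, Nat.add_mul_div_right _ _ (by positivity), Nat.div_eq_of_lt (DEN_s_lt _ _), zero_add]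
  have hmem : ∀ (z : β₀.prod (α.prod β).set) (u : α) (v : β),
      ((u, v) ∈ z.2 ↔ tb (e z) (e₁ u * 2 ^ B + e₂ v)) := by
    intro z u v
    rw [hlow z _ (hidx u v), hP]
  refine ⟨e, ⟨?_, ?_, ?_, ?_⟩, ?_⟩
  · intro z
    show e₀ z.1 * 2 ^ N + DEN_s (P z.2) N < 2 ^ (b + N)
    have hz := h0.lt z.1
    have hs := DEN_s_lt (P z.2) N
    rw [pow_add]
    calc e₀ z.1 * 2 ^ N + DEN_s (P z.2) N < e₀ z.1 * 2 ^ N + 2 ^ N := by omega
      _ = (e₀ z.1 + 1) * 2 ^ N := by ring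
      _ ≤ 2 ^ b * 2 ^ N := Nat.mul_le_mul_right _ hz
  · intro z z' h
    have h3 : z.1 = z'.1 := h0.inj (by rw [← hdiv z, ← hdiv z', h])
    have h4 : z.2 = z'.2 := by
      apply Set.ext
      rintro ⟨u, v⟩
      rw [hmem z u v, hmem z' u v, h]
    exact Prod.ext h3 h4
  · intro n hn
    have hn1 : n / 2 ^ N < 2 ^ b := by
      rw [Nat.div_lt_iff_lt_mul (by positivity), ← pow_add]
      exact hn
    obtain ⟨t, ht⟩ := h0.surj _ hn1
    refine ⟨(t, {p : α × β | tb n (e₁ p.1 * 2 ^ B + e₂ p.2)}), ?_⟩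
    apply DEN_eq
    intro i
    by_cases hi : i < N
    · rw [hlow _ _ hi]
      obtain ⟨u, v, rfl⟩ := hsurj i hi
      rw [hP]
      exact Iff.rfl
    · rw [hhigh _ _ (not_lt.1 hi)]
      show tb (e₀ t) (i - N) ↔ tb n i
      rw [ht]
      have hnn : n = (n / 2 ^ N) * 2 ^ N + n % 2 ^ N := by
        rw [mul_comm]; exact (Nat.div_add_mod n (2 ^ N)).symm
      have := DEN_high (n / 2 ^ N) (n % 2 ^ N) N i (Nat.mod_lt _ (by positivity)) (not_lt.1 hi)
      rw [← hnn] at this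
      exact this.symm
  · intro z z'
    rw [DEN_sub]
    constructor
    · intro hle i hi
      have hle1 : z.1 ≤ z'.1 := hle.1
      have hle2 : z.2 ≤ z'.2 := hle.2
      by_cases hiN : i < N
      · rw [hlow _ _ hiN] at hi ⊢
        obtain ⟨u, v, rfl⟩ := hsurj i hiN
        rw [hP] at hi ⊢
        exact hle2 hi
      · rw [hhigh _ _ (not_lt.1 hiN)] at hi ⊢
        exact (DEN_sub _ _).1 ((h0.le _ _).1 hle1) _ hi
    · intro h
      refine ⟨?_, ?_⟩
      · show z.1 ≤ z'.1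
        rw [h0.le, DEN_sub]
        intro i hi
        have h3 := h (i + N)
        rw [hhigh _ _ (by omega), hhigh _ _ (by omega)] at h3
        have : i + N - N = i := by omega
        rw [this] at h3
        exact h3 hi
      · show z.2 ≤ z'.2
        rintro ⟨u, v⟩ huv
        rw [hmem z' u v]
        exact h _ ((hmem z u v).1 huv)
  · intro t D
    refine ⟨hdiv (t, D), ?_⟩
    intro u v
    exact hmem (t, D) u v

end

end PF
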